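import Pool.Agent.Helper48.FB.St.Stubs

set_option autoImplicit false

/-!
# FB-A8: the filler of a gap
-/

namespace Pool.Agent.Helper43.FB

open Finset
open Pool.Agent.Helper53.WR
open Pool.Agent.Helper48.FB

lemma dens_nonneg (L x : ℕ) : 0 ≤ dens L x := le_min zero_le_one (Real.sqrt_nonneg _)

lemma exp_one_le_three : Real.exp 1 ≤ 3 := by
  have := Real.exp_one_lt_d9
  linarith

lemma sixteenth {c : ℝ} (hc : 15 ≤ c) : Real.exp (-c) ≤ 1 / 16 := by
  rw [Real.exp_neg, ← one_div]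
  have h := Real.add_one_le_exp c
  exact one_div_le_one_div_of_le (by norm_num) (by linarith)

lemma two_pow_le_exp (n : ℕ) : (2 : ℝ) ^ n ≤ Real.exp n := by
  have h : (2 : ℝ) ≤ Real.exp 1 := by
    have := Real.add_one_le_exp (1 : ℝ)
    linarith
  calc (2 : ℝ) ^ n ≤ (Real.exp 1) ^ n := pow_le_pow_left₀ (by norm_num) h n
    _ = Real.exp n := by rw [← Real.exp_nat_mul, mul_one]

/-- one term with base `e` -/
lemma term_e {S M : ℝ} (hM : 0 ≤ M) (hS : S ≤ M) (y : ℕ) :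
    Real.exp (Real.exp 1 * S) / Real.exp 1 ^ y ≤ Real.exp (3 * M - y) := by
  have h1 : Real.exp 1 ^ y = Real.exp y := by rw [← Real.exp_nat_mul, mul_one]
  rw [h1, ← Real.exp_sub]
  refine Real.exp_le_exp.2 ?_
  have h2 : Real.exp 1 * S ≤ Real.exp 1 * M := mul_le_mul_of_nonneg_left hS (Real.exp_pos 1).le
  have h3 : Real.exp 1 * M ≤ 3 * M := mul_le_mul_of_nonneg_right exp_one_le_three hM
  linarith

/-- sum of many tiny terms -/
lemma sum_tiny {ι : Type} (F : Finset ι) (f : ι → ℝ) {c : ℝ} {N : ℕ} (hN : F.card ≤ 2 ^ N)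
    (hf : ∀ i ∈ F, f i ≤ Real.exp (-c)) (hc : (N : ℝ) + 15 ≤ c) : ∑ i ∈ F, f i ≤ 1 / 16 := by
  have h1 : ∑ i ∈ F, f i ≤ F.card * Real.exp (-c) := by
    have := Finset.sum_le_card_nsmul F f _ hf
    rwa [nsmul_eq_mul] at this
  have h2 : (F.card : ℝ) ≤ Real.exp N := by
    refine le_trans ?_ (two_pow_le_exp N)
    exact_mod_cast hN
  calc ∑ i ∈ F, f i ≤ F.card * Real.exp (-c) := h1
    _ ≤ Real.exp N * Real.exp (-c) := mul_le_mul_of_nonneg_right h2 (Real.exp_pos _).le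
    _ = Real.exp (-(c - N)) := by rw [← Real.exp_add]; congr 1; ring
    _ ≤ 1 / 16 := sixteenth (by linarith)

/-- sum of many terms bounded by `e / 2 ^ M` -/
lemma sum_pow {ι : Type} (F : Finset ι) (f : ι → ℝ) {N M : ℕ} (hN : F.card ≤ 2 ^ N)
    (hf : ∀ i ∈ F, f i ≤ Real.exp 1 / 2 ^ M) (hc : N + 6 ≤ M) : ∑ i ∈ F, f i ≤ 1 / 16 := by
  have h1 : ∑ i ∈ F, f i ≤ F.card * (Real.exp 1 / 2 ^ M) := by
    have := Finset.sum_le_card_nsmul F f _ hf
    rwa [nsmul_eq_mul] at this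
  have h2 : (F.card : ℝ) ≤ 2 ^ N := by exact_mod_cast hN
  have h3 : (2 : ℝ) ^ N * 2 ^ 6 ≤ 2 ^ M := by
    rw [← pow_add]
    exact pow_le_pow_right₀ (by norm_num) hc
  have hMp : (0 : ℝ) < 2 ^ M := by positivity
  have hNp : (0 : ℝ) < 2 ^ N := by positivity
  calc ∑ i ∈ F, f i ≤ F.card * (Real.exp 1 / 2 ^ M) := h1
    _ ≤ 2 ^ N * (3 / 2 ^ M) := by
        refine mul_le_mul h2 ?_ (by positivity) (by positivity)
        exact div_le_div_of_nonneg_right exp_one_le_three hMp.le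
    _ ≤ 1 / 16 := by
        rw [mul_div_assoc', div_le_div_iff₀ hMp (by norm_num)]
        nlinarith

lemma card_cross_le (X Y : Finset ℕ) (n : ℕ) (Z : Finset ℕ)
    (h : ∀ x ∈ X, x ≤ n → n - x ∈ Y → x ∈ Z) : (crossF X Y n).card ≤ (X ∩ Z).card := by
  refine Finset.card_le_card_of_injOn (fun z => z.1) ?_ ?_
  · intro z hz
    unfold crossF at hz
    rw [mem_coe, mem_filter, mem_product] at hz
    obtain ⟨⟨h1, h2⟩, h3⟩ := hz
    rw [mem_coe, mem_inter]
    refine ⟨h1, h z.1 h1 (by omega) ?_⟩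
    have : n - z.1 = z.2 := by omega
    rw [this]; exact h2
  · intro z hz w hw hzw
    unfold crossF at hz hw
    rw [mem_coe, mem_filter] at hz hw
    have e1 : z.1 = w.1 := hzw
    refine Prod.ext e1 ?_
    have := hz.2
    have := hw.2
    omega

lemma cross_empty (X Y : Finset ℕ) (n A B : ℕ) (hX : ∀ x ∈ X, x < A) (hY : ∀ y ∈ Y, y < B)
    (hn : A + B ≤ n) : (crossF X Y n).card = 0 := by
  rw [Finset.card_eq_zero]
  unfold crossF
  refine Finset.filter_eq_empty_iff.2 ?_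
  intro z hz hz2
  rw [mem_product] at hz
  have := hX _ hz.1
  have := hY _ hz.2
  omega

/-- a residue class: at most one small element -/
lemma card_class_le (R : Finset ℕ) (m r y : ℕ) (hm : 0 < m) (L : ℕ) (hR : ∀ x ∈ R, x < 2 ^ L)
    (h : r < m → (R ∩ (range (2 ^ L)).filter (fun x => m ≤ x ∧ x % m = r)).card ≤ y) :
    (R.filter (fun b => b % m = r)).card ≤ 1 + y := by
  by_cases hr : r < m
  · have hsub : R.filter (fun b => b % m = r) ⊆
        {r} ∪ (R ∩ (range (2 ^ L)).filter (fun x => m ≤ x ∧ x % m = r)) := by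
      intro x hx
      rw [mem_filter] at hx
      rw [mem_union, mem_singleton, mem_inter, mem_filter, mem_range]
      by_cases hxm : m ≤ x
      · right
        exact ⟨hx.1, hR x hx.1, hxm, hx.2⟩
      · left
        rw [Nat.mod_eq_of_lt (by omega)] at hx
        exact hx.2
    refine (card_le_card hsub).trans ((card_union_le _ _).trans ?_)
    rw [card_singleton]
    exact Nat.add_le_add_left (h hr) 1
  · have : R.filter (fun b => b % m = r) = ∅ := by
      refine Finset.filter_eq_empty_iff.2 ?_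
      intro x _ hx
      have := Nat.mod_lt x hm
      omega
    rw [this, card_empty]
    omega

section params

variable {a u e t κ w : ℕ → ℕ}

lemma u_mono (h : FTow a u e t κ w) : Monotone u := monotone_nat_of_le_succ h.tow.uu'
lemma e_mono (h : FTow a u e t κ w) : Monotone e := monotone_nat_of_le_succ h.tow.ee'
lemma a_mono (h : FTow a u e t κ w) : Monotone a :=
  monotone_nat_of_le_succ (fun k => by rw [h.tow.step k]; omega)

lemma u_pos (h : FTow a u e t κ w) (k : ℕ) : 30000 ≤ u k := by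
  have := h.tow.e300 k
  have := h.tow.eu k
  omega

lemma le_a (h : FTow a u e t κ w) (i : ℕ) : i ≤ a i := by
  induction i with
  | zero => exact Nat.zero_le _
  | succ i ih =>
    rw [h.tow.step i]
    have := u_pos h i
    omega

lemma a_succ_le (h : FTow a u e t κ w) {k i : ℕ} (hi : k < i) : a k + u k ≤ a i := by
  rw [← h.tow.step k]
  exact a_mono h hi

lemma kappa_big (h : FTow a u e t κ w) (k : ℕ) : 300 ≤ κ k := by
  have h1 := h.tow.hκ k
  have h2 := h.tow.ua k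
  have h3 := u_pos h k
  by_contra hc
  have h4 : κ k ≤ 299 := by omega
  have h5 : u k * κ k ≤ u k * 299 := Nat.mul_le_mul_left _ h4
  omega

/-- the mean of a residue class modulo a power of `q i` -/
lemma class_mean (h : FTow a u e t κ w) (k m c r : ℕ) (hm : 2 ^ c < m) :
    ∑ x ∈ (range (2 ^ LR a u e k)).filter (fun x => m ≤ x ∧ x % m = r), dens (LR a u e k) x
      ≤ 2 ^ (2 * a k + 4 * u k + 33 * e k + 9) / 2 ^ c := by
  have hm0 : 0 < m := lt_of_le_of_lt (Nat.zero_le _) hm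
  refine (St.class_dens_le _ m r hm0).trans ?_
  have hmr : (0 : ℝ) < m := by exact_mod_cast hm0
  have e1 := h.tow.e300 k
  have e2 := h.tow.eu k
  have e3 := h.tow.ua k
  have e4 := h.tow.h20 k
  have hL : LR a u e k ≤ 2 ^ (2 * e k) := by
    have h5 : LR a u e k ≤ 20 * a k := by
      unfold LR thT
      omega
    refine h5.trans (e4.trans (Nat.pow_le_pow_right (by norm_num) (by omega)))
  have h6 : √((LR a u e k : ℝ) * 2 ^ LR a u e k) ≤ 2 ^ (2 * a k + 4 * u k + 33 * e k + 6) := by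
    rw [Real.sqrt_le_left (by positivity)]
    have h7 : ((LR a u e k : ℕ) : ℝ) ≤ 2 ^ (2 * e k) := by exact_mod_cast hL
    have h8 : ((2 : ℝ) ^ (2 * a k + 4 * u k + 33 * e k + 6)) ^ 2
        = 2 ^ (2 * e k) * 2 ^ LR a u e k := by
      rw [← pow_mul, ← pow_add]
      congr 1
      unfold LR thT
      ring
    rw [h8]
    exact mul_le_mul_of_nonneg_right h7 (by positivity)
  have h9 : (2 : ℝ) ^ c ≤ m := by exact_mod_cast hm.le
  have h10 : 8 * √((LR a u e k : ℝ) * 2 ^ LR a u e k)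
      ≤ 2 ^ (2 * a k + 4 * u k + 33 * e k + 9) := by
    calc 8 * √((LR a u e k : ℝ) * 2 ^ LR a u e k)
        ≤ 8 * 2 ^ (2 * a k + 4 * u k + 33 * e k + 6) := by linarith
      _ = 2 ^ (2 * a k + 4 * u k + 33 * e k + 9) := by
          have : (8 : ℝ) = 2 ^ 3 := by norm_num
          rw [this, ← pow_add]
          congr 1
          ring
  exact div_le_div₀ (by positivity) h10 (by positivity) h9

end params

/-- FB-A8 (the filler of a gap). Uses A4, A7, A3e. -/
theorem filler_stage {a u e t κ w : ℕ → ℕ} (h : FTow a u e t κ w) (k : ℕ) (q : ℕ → ℕ)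
    (hq : ∀ i, (q i).Prime ∧ 2 ^ (a i) < q i ∧ q i ≤ 2 ^ (a i + 1)) (O W : Finset ℕ)
    (hO : ∀ o ∈ O, o < 2 ^ (4 * a k + 8 * u k)) (hr : ∀ n, repF O n ≤ 4 * Cs * a k)
    (hWr : ∀ x ∈ W, x < 2 ^ (4 * a (k + 1) + 8 * u (k + 1)))
    (hmid : ∀ y h', 2 ^ (4 * a k + 4) ≤ h' → h' ≤ 2 ^ (4 * a k + thT u e k + 13) →
      (win W y h').card ^ 2 * 2 ^ (4 * a k + thT u e k) ≤ 2 ^ 57 * h' ^ 2 * Fs u k)
    (hfar : ∀ y, 2 ^ (4 * a k + thT u e k + 127 * e k) ≤ y →
      (win W y (2 ^ (4 * a k + thT u e k + 12))).card ≤ 2 ^ (2 * a k + 4 * u k - 10 * e k)) :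
    ∃ R, FR a u e t κ q k O W R := by
  classical
  have e1 := h.tow.e300 k
  have e2 := h.tow.eu k
  have e3 := h.tow.ua k
  have e4 := h.tow.h20 k
  have ht := h.tow.ht k
  have hk := kappa_big h k
  have huu := h.tow.uu k
  have hst := h.tow.step k
  have hL100 : 100 ≤ LR a u e k := by unfold LR thT; omega
  have hLle : LR a u e k ≤ 6 * a k - 1 := by unfold LR thT; omega
  have haR : (3000000 : ℝ) ≤ (a k : ℝ) := by
    have : 3000000 ≤ a k := by omega
    exact_mod_cast this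
  -- the families
  let b : ℕ := 2 ^ zR a u k
  let L : ℕ := LR a u e k
  let Y2 : Finset ℕ → ℕ → Finset ℕ := fun V n =>
    (range (2 ^ LR a u e k)).filter (fun x => 2 ^ zR a u k ≤ x ∧ x ≤ n ∧ n - x ∈ V)
  let Yc : ℕ → ℕ × ℕ → Finset ℕ := fun j p =>
    (range (2 ^ LR a u e k)).filter (fun x => (q p.1) ^ j ≤ x ∧ x % (q p.1) ^ j = p.2)
  let F1 : Finset ℕ := range (2 ^ (6 * a k))
  let F3 : Finset ℕ := F1.filter (fun n => 2 ^ (4 * a k + thT u e k + 128 * e k) ≤ n)
  let F4 : Finset (ℕ × ℕ) := ((range (3 * a k + 1)) ×ˢ range (2 ^ (6 * a k + 2))).filter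
    (fun p => k < p.1 ∧ a p.1 ≤ 3 * a k)
  let F5 : Finset (ℕ × ℕ) := ((range (3 * a k + 1)) ×ˢ range (2 ^ (12 * a k + 4))).filter
    (fun p => k < p.1 ∧ a p.1 ≤ 3 * a k)
  have hsub : ∀ Z : Finset ℕ, ∑ x ∈ Z.filter (fun x => 2 ^ zR a u k ≤ x ∧ x < 2 ^ LR a u e k),
      dens (LR a u e k) x ≤ ∑ x ∈ Z, dens (LR a u e k) x := fun Z =>
    Finset.sum_le_sum_of_subset_of_nonneg (filter_subset _ _) (fun x _ _ => dens_nonneg _ x)
  have h31 : 3 * a k + 1 ≤ 2 ^ (3 * a k + 1) := (Nat.lt_two_pow_self).le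
  have hF4 : F4.card ≤ 2 ^ (9 * a k + 3) := by
    refine (card_filter_le _ _).trans ?_
    rw [card_product, card_range, card_range]
    calc (3 * a k + 1) * 2 ^ (6 * a k + 2) ≤ 2 ^ (3 * a k + 1) * 2 ^ (6 * a k + 2) :=
          Nat.mul_le_mul_right _ h31
      _ = 2 ^ (9 * a k + 3) := by rw [← pow_add]; congr 1; ring
  have hF5 : F5.card ≤ 2 ^ (15 * a k + 5) := by
    refine (card_filter_le _ _).trans ?_
    rw [card_product, card_range, card_range]
    calc (3 * a k + 1) * 2 ^ (12 * a k + 4) ≤ 2 ^ (3 * a k + 1) * 2 ^ (12 * a k + 4) :=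
          Nat.mul_le_mul_right _ h31
      _ = 2 ^ (15 * a k + 5) := by rw [← pow_add]; congr 1; ring
  -- family 1
  have s1 : ∑ n ∈ F1, Real.exp (Real.exp 1 * ∑ x ∈ (Y2 O n).filter
      (fun x => 2 ^ zR a u k ≤ x ∧ x < 2 ^ LR a u e k), dens (LR a u e k) x) /
        Real.exp 1 ^ (2 ^ 52 * a k) ≤ 1 / 16 := by
    refine sum_tiny F1 _ (c := 5 * 2 ^ 49 * (a k : ℝ)) (N := 6 * a k) (by simp [F1]) ?_ ?_
    · intro n _
      have hS := (hsub (Y2 O n)).trans (St.mean_O h k n O hO hr)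
      refine (term_e (by positivity) hS _).trans (le_of_eq ?_)
      congr 1
      push_cast
      ring
    · push_cast
      linarith
  -- family 2
  have s2 : ∑ n ∈ F1, Real.exp (Real.exp 1 * ∑ x ∈ (Y2 W n).filter
      (fun x => 2 ^ zR a u k ≤ x ∧ x < 2 ^ LR a u e k), dens (LR a u e k) x) /
        Real.exp 1 ^ (2 ^ 56 * a k) ≤ 1 / 16 := by
    refine sum_tiny F1 _ (c := 2 ^ 54 * (a k : ℝ)) (N := 6 * a k) (by simp [F1]) ?_ ?_
    · intro n _
      have hS := (hsub (Y2 W n)).trans (St.mean_W h k n W hmid)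
      refine (term_e (by positivity) hS _).trans (le_of_eq ?_)
      congr 1
      push_cast
      ring
    · push_cast
      linarith
  -- family 3
  have s3 : ∑ n ∈ F3, Real.exp ((2 : ℝ) ^ (8 * e k) * ∑ x ∈ (Y2 W n).filter
      (fun x => 2 ^ zR a u k ≤ x ∧ x < 2 ^ LR a u e k), dens (LR a u e k) x) /
        ((2 : ℝ) ^ (8 * e k)) ^ (t k) ≤ 1 / 16 := by
    refine sum_pow F3 _ (N := 6 * a k) (M := 8 * a k) ?_ ?_ (by omega)
    · refine (card_filter_le _ _).trans ?_
      simp [F1]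
    · intro n hn
      rw [mem_filter] at hn
      have hS := (hsub (Y2 W n)).trans (St.mean_far h k n W hn.2 hfar)
      have h1 : (2 : ℝ) ^ (8 * e k) * ∑ x ∈ (Y2 W n).filter
          (fun x => 2 ^ zR a u k ≤ x ∧ x < 2 ^ LR a u e k), dens (LR a u e k) x ≤ 1 := by
        have h2 := mul_le_mul_of_nonneg_left hS (by positivity : (0 : ℝ) ≤ 2 ^ (8 * e k))
        rwa [mul_one_div_cancel (by positivity)] at h2
      refine div_le_div₀ (Real.exp_pos 1).le (Real.exp_le_exp.2 h1) (by positivity) ?_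
      rw [← pow_mul]
      refine pow_le_pow_right₀ (by norm_num) ?_
      calc 8 * a k ≤ 8 * (e k * t k) := Nat.mul_le_mul_left _ ht
        _ = 8 * e k * t k := by ring
  -- family 4
  have s4 : ∑ p ∈ F4, Real.exp (Real.exp 1 * ∑ x ∈ (Yc 2 p).filter
      (fun x => 2 ^ zR a u k ≤ x ∧ x < 2 ^ LR a u e k), dens (LR a u e k) x) /
        Real.exp 1 ^ (2 ^ (4 * u p.1 + 4 * e p.1)) ≤ 1 / 16 := by
    refine sum_tiny F4 _ (c := 20 * (a k : ℝ)) (N := 9 * a k + 3) hF4 ?_ ?_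
    · intro p hp
      rw [mem_filter] at hp
      obtain ⟨_, hp1, hp2⟩ := hp
      have hai := a_succ_le h hp1
      have hq2 : 2 ^ (2 * a p.1) < q p.1 ^ 2 := by
        rw [mul_comm, pow_mul]
        exact Nat.pow_lt_pow_left (hq p.1).2.1 (by norm_num)
      have hS := (hsub (Yc 2 p)).trans (class_mean h k _ (2 * a p.1) p.2 hq2)
      have hS2 : (2 : ℝ) ^ (2 * a k + 4 * u k + 33 * e k + 9) / 2 ^ (2 * a p.1)
          ≤ 2 ^ (2 * u k + 33 * e k + 9) := by
        rw [div_le_iff₀ (by positivity), ← pow_add]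
        exact pow_le_pow_right₀ (by norm_num) (by omega)
      refine (term_e (by positivity) (hS.trans hS2) _).trans ?_
      refine Real.exp_le_exp.2 ?_
      have hu := u_mono h hp1.le
      have he := e_mono h hp1.le
      have h1 : (2 : ℝ) ^ (4 * u k + 4 * e k) ≤ 2 ^ (4 * u p.1 + 4 * e p.1) :=
        pow_le_pow_right₀ (by norm_num) (by omega)
      have h2 : 4 * (2 : ℝ) ^ (2 * u k + 33 * e k + 9) ≤ 2 ^ (4 * u k + 4 * e k - 1) := by
        have : (4 : ℝ) = 2 ^ 2 := by norm_num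
        rw [this, ← pow_add]
        exact pow_le_pow_right₀ (by norm_num) (by omega)
      have h3 : (2 : ℝ) ^ (4 * u k + 4 * e k) = 2 * 2 ^ (4 * u k + 4 * e k - 1) := by
        rw [← pow_succ']
        congr 1
        omega
      have h4 : (20 : ℝ) * a k ≤ 2 ^ (4 * u k + 4 * e k - 1) := by
        have h5 : ((20 * a k : ℕ) : ℝ) ≤ ((2 ^ e k : ℕ) : ℝ) := by exact_mod_cast e4
        push_cast at h5
        refine h5.trans (pow_le_pow_right₀ (by norm_num) (by omega))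
      have h6 : (0 : ℝ) < 2 ^ (2 * u k + 33 * e k + 9) := by positivity
      push_cast
      linarith
    · push_cast
      linarith
  -- family 5
  have s5 : ∑ p ∈ F5, Real.exp ((2 : ℝ) ^ (a k) * ∑ x ∈ (Yc 4 p).filter
      (fun x => 2 ^ zR a u k ≤ x ∧ x < 2 ^ LR a u e k), dens (LR a u e k) x) /
        ((2 : ℝ) ^ (a k)) ^ (8 * κ k) ≤ 1 / 16 := by
    refine sum_pow F5 _ (N := 15 * a k + 5) (M := a k * (8 * κ k)) hF5 ?_ ?_
    · intro p hp
      rw [mem_filter] at hp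
      obtain ⟨_, hp1, hp2⟩ := hp
      have hai := a_succ_le h hp1
      have hq2 : 2 ^ (4 * a p.1) < q p.1 ^ 4 := by
        rw [mul_comm, pow_mul]
        exact Nat.pow_lt_pow_left (hq p.1).2.1 (by norm_num)
      have hS := (hsub (Yc 4 p)).trans (class_mean h k _ (4 * a p.1) p.2 hq2)
      have h1 : (2 : ℝ) ^ (a k) * ∑ x ∈ (Yc 4 p).filter
          (fun x => 2 ^ zR a u k ≤ x ∧ x < 2 ^ LR a u e k), dens (LR a u e k) x ≤ 1 := by
        refine (mul_le_mul_of_nonneg_left hS (by positivity)).trans ?_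
        rw [mul_div_assoc', div_le_one (by positivity), ← pow_add]
        exact pow_le_pow_right₀ (by norm_num) (by omega)
      refine div_le_div₀ (Real.exp_pos 1).le (Real.exp_le_exp.2 h1) (by positivity) ?_
      rw [← pow_mul]
    · have h1 : a k * (8 * 300) ≤ a k * (8 * κ k) :=
        Nat.mul_le_mul_left _ (Nat.mul_le_mul_left _ hk)
      omega
  obtain ⟨R, hR1, hR2, hR3, hR4, hR5⟩ := St.filler_core (2 ^ zR a u k) (LR a u e k) hL100
    (F1.disjSum (F1.disjSum (F3.disjSum (F4.disjSum F5))))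
    (Sum.elim (Y2 O) (Sum.elim (Y2 W) (Sum.elim (Y2 W) (Sum.elim (Yc 2) (Yc 4)))))
    (Sum.elim (fun _ => Real.exp 1) (Sum.elim (fun _ => Real.exp 1)
      (Sum.elim (fun _ => (2 : ℝ) ^ (8 * e k)) (Sum.elim (fun _ => Real.exp 1)
        (fun _ => (2 : ℝ) ^ (a k))))))
    (Sum.elim (fun _ => 2 ^ 52 * a k) (Sum.elim (fun _ => 2 ^ 56 * a k)
      (Sum.elim (fun _ => t k) (Sum.elim (fun p => 2 ^ (4 * u p.1 + 4 * e p.1))
        (fun _ => 8 * κ k)))))
    (by
      have he : (1 : ℝ) ≤ Real.exp 1 := Real.one_le_exp zero_le_one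
      intro j _
      rcases j with j | j | j | j | j
      · exact he
      · exact he
      · exact one_le_pow₀ (by norm_num)
      · exact he
      · exact one_le_pow₀ (by norm_num))
    (by
      rw [Finset.sum_disjSum, Finset.sum_disjSum, Finset.sum_disjSum, Finset.sum_disjSum]
      simp only [Sum.elim_inl, Sum.elim_inr]
      linarith)
  have hRlt : ∀ x ∈ R, x < 2 ^ LR a u e k := fun x hx => (hR1 x hx).2
  have hp6 : 2 ^ (6 * a k - 1) + 2 ^ (6 * a k - 1) = 2 ^ (6 * a k) := by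
    rw [← two_mul, ← pow_succ']
    congr 1
    omega
  have hRlt6 : ∀ x ∈ R, x < 2 ^ (6 * a k - 1) := fun x hx =>
    lt_of_lt_of_le (hRlt x hx) (Nat.pow_le_pow_right (by norm_num) hLle)
  have hOlt6 : ∀ x ∈ O, x < 2 ^ (6 * a k - 1) := fun x hx =>
    lt_of_lt_of_le (hO x hx) (Nat.pow_le_pow_right (by norm_num) (by omega))
  have hWlt6 : ∀ x ∈ W, x < 2 ^ (6 * a k - 1) := fun x hx =>
    lt_of_lt_of_le (hWr x hx) (Nat.pow_le_pow_right (by norm_num) (by rw [hst]; omega))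
  have hcr : ∀ (V : Finset ℕ) (n : ℕ), (crossF R V n).card ≤ (R ∩ Y2 V n).card := by
    intro V n
    refine card_cross_le R V n _ ?_
    intro x hx hxn hxV
    rw [mem_filter, mem_range]
    exact ⟨hRlt x hx, (hR1 x hx).1, hxn, hxV⟩
  have hqpos : ∀ i j, 0 < q i ^ j := fun i j => pow_pos (hq i).1.pos j
  refine ⟨R, ⟨hR1, ?_, hR3, ?_, ?_, ?_, hR4, ?_, ?_⟩⟩
  · intro n hn1 hn2
    refine hR2 n ?_ hn2
    calc 4 * 2 ^ zR a u k = 2 ^ (zR a u k + 2) := by rw [pow_add]; ring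
      _ ≤ n := hn1
  · intro n
    by_cases hn : n < 2 ^ (6 * a k)
    · have h1 := hR5 (Sum.inl n) (Finset.inl_mem_disjSum.2 (mem_range.2 hn))
      exact (hcr O n).trans h1.le
    · rw [cross_empty R O n _ _ hRlt6 hOlt6 (by omega)]
      exact Nat.zero_le _
  · intro n
    by_cases hn : n < 2 ^ (6 * a k)
    · have h1 := hR5 (Sum.inr (Sum.inl n))
        (Finset.inr_mem_disjSum.2 (Finset.inl_mem_disjSum.2 (mem_range.2 hn)))
      exact (hcr W n).trans h1.le
    · rw [cross_empty R W n _ _ hRlt6 hWlt6 (by omega)]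
      exact Nat.zero_le _
  · intro n hn'
    by_cases hn : n < 2 ^ (6 * a k)
    · have h1 := hR5 (Sum.inr (Sum.inr (Sum.inl n)))
        (Finset.inr_mem_disjSum.2 (Finset.inr_mem_disjSum.2 (Finset.inl_mem_disjSum.2
          (mem_filter.2 ⟨mem_range.2 hn, hn'⟩))))
      exact (hcr W n).trans h1.le
    · rw [cross_empty R W n _ _ hRlt6 hWlt6 (by omega)]
      exact Nat.zero_le _
  · intro i hi hai r
    refine card_class_le R (q i ^ 2) r _ (hqpos i 2) _ hRlt ?_
    intro hr2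
    have hq3 : q i ^ 2 ≤ 2 ^ (6 * a k + 2) := by
      calc q i ^ 2 ≤ (2 ^ (a i + 1)) ^ 2 := Nat.pow_le_pow_left (hq i).2.2 2
        _ = 2 ^ (2 * a i + 2) := by rw [← pow_mul]; congr 1; ring
        _ ≤ 2 ^ (6 * a k + 2) := Nat.pow_le_pow_right (by norm_num) (by omega)
    have hi3 := le_a h i
    have h1 := hR5 (Sum.inr (Sum.inr (Sum.inr (Sum.inl (i, r)))))
      (Finset.inr_mem_disjSum.2 (Finset.inr_mem_disjSum.2 (Finset.inr_mem_disjSum.2
        (Finset.inl_mem_disjSum.2 (mem_filter.2 ⟨mem_product.2 ⟨mem_range.2 (by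
          show i < 3 * a k + 1; omega), mem_range.2 (by
          show r < 2 ^ (6 * a k + 2); omega)⟩, hi, hai⟩)))))
    exact h1.le
  · intro i hi hai r
    refine card_class_le R (q i ^ 4) r _ (hqpos i 4) _ hRlt ?_
    intro hr2
    have hq3 : q i ^ 4 ≤ 2 ^ (12 * a k + 4) := by
      calc q i ^ 4 ≤ (2 ^ (a i + 1)) ^ 4 := Nat.pow_le_pow_left (hq i).2.2 4
        _ = 2 ^ (4 * a i + 4) := by rw [← pow_mul]; congr 1; ring
        _ ≤ 2 ^ (12 * a k + 4) := Nat.pow_le_pow_right (by norm_num) (by omega)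
    have hi3 := le_a h i
    have h1 := hR5 (Sum.inr (Sum.inr (Sum.inr (Sum.inr (i, r)))))
      (Finset.inr_mem_disjSum.2 (Finset.inr_mem_disjSum.2 (Finset.inr_mem_disjSum.2
        (Finset.inr_mem_disjSum.2 (mem_filter.2 ⟨mem_product.2 ⟨mem_range.2 (by
          show i < 3 * a k + 1; omega), mem_range.2 (by
          show r < 2 ^ (12 * a k + 4); omega)⟩, hi, hai⟩)))))
    exact h1.le

end Pool.Agent.Helper43.FB
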